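import Pool.Agent.W2helper63.LL.Stm

/-!
# Project LL (`MP_5ae62c_nt`), piece CT
-/

set_option autoImplicit false

noncomputable section

namespace Pool.Agent.W2helper12.LL

open Pool.Agent.W2helper63.LL
open IsDedekindDomain Polynomial Matrix WithZero
open scoped Classical

theorem pr_mul (v : Pl) (g h : GA) : pr v (g * h) = pr v g * pr v h := by
  unfold pr
  rw [Prod.fst_mul, map_mul]

theorem pr_one (v : Pl) : pr v 1 = 1 := by
  unfold pr
  rw [Prod.fst_one, map_one]

theorem pr_inv (v : Pl) (g : GA) : pr v g⁻¹ = (pr v g)⁻¹ := by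
  unfold pr
  rw [Prod.fst_inv, map_inv]

theorem pr_bor (v : Pl) (y : Adele) : pr v (borA 1 y 1) = bor 1 (y.1 v) 1 := by
  ext i j
  unfold pr borA bor
  fin_cases i <;> fin_cases j <;>
    simp [GeneralLinearGroup.map_apply, ev] <;> rfl

theorem bor_mul {S : Type} [CommRing S] (x y : S) :
    bor (1 : Sˣ) (x + y) 1 = bor 1 x 1 * bor 1 y 1 := by
  ext i j
  unfold bor
  fin_cases i <;> fin_cases j <;> simp [Matrix.mul_apply, Fin.sum_univ_two, add_comm]

theorem borA_mul (x y : Adele) : borA 1 (x + y) 1 = borA 1 x 1 * borA 1 y 1 := by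
  unfold borA
  rw [Prod.ext_iff]
  exact ⟨bor_mul x.1 y.1, bor_mul x.2 y.2⟩

theorem bor_zero {S : Type} [CommRing S] : bor (1 : Sˣ) (0 : S) 1 = 1 := by
  ext i j
  unfold bor
  fin_cases i <;> fin_cases j <;> simp

theorem integral_one {L : Type} [Field L] [Valued L (WithZero (Multiplicative ℤ))] :
    Integral (1 : GL (Fin 2) L) := by
  intro i j
  rw [inv_one]
  fin_cases i <;> fin_cases j <;> simp

/-- the finite adele with component `t` at `v` and `0` elsewhere -/
def sngl (v : Pl) (t : Kv v) : Af :=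
  ⟨Pi.single v t, by
    have : ({v} : Set Pl)ᶜ ∈ (Filter.cofinite : Filter Pl) := by
      rw [Filter.mem_cofinite, compl_compl]
      exact Set.finite_singleton v
    filter_upwards [this] with w hw
    have hw' : w ≠ v := by simpa using hw
    rw [Pi.single_eq_of_ne hw']
    exact zero_mem _⟩

theorem sngl_same (v : Pl) (t : Kv v) : sngl v t v = t := Pi.single_eq_same v t

theorem sngl_ne {v w : Pl} (h : w ≠ v) (t : Kv v) : sngl v t w = 0 := Pi.single_eq_of_ne h t

theorem v0_ne_v1 : v0 ≠ v1 := by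
  intro h
  have h1 : v0.asIdeal = v1.asIdeal := by rw [h]
  have h2 : (X : R) ∈ v0.asIdeal := Ideal.mem_span_singleton_self X
  rw [h1] at h2
  have h3 : (X - C 1 : R) ∈ v1.asIdeal := Ideal.mem_span_singleton_self _
  have h4 : (X - (X - C 1) : R) ∈ v1.asIdeal := v1.asIdeal.sub_mem h2 h3
  have h5 : (1 : R) ∈ v1.asIdeal := by
    have : (X - (X - C 1) : R) = 1 := by rw [C_1]; ring
    rwa [this] at h4
  exact v1.isPrime.ne_top ((Ideal.eq_top_iff_one _).2 h5)

section loc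

variable {L : Type} [Field L] [Valued L (WithZero (Multiplicative ℤ))]

theorem v_le_iff (x : L) (hx : Valued.v x ≤ 1) : Valued.v x = 1 ∨ Valued.v x < 1 := by
  rcases lt_or_eq_of_le hx with h | h
  · exact Or.inr h
  · exact Or.inl h

/-- the local computation -/
theorem local_sign {p : Lˣ} (h2 : Res2 L p) (M : GL (Fin 2) L) (c d : L)
    (hc : Valued.v c ≤ 1) (hd : Valued.v d ≤ 1) (hm : Valued.v c = 1 ∨ Valued.v d = 1)
    (hM : M.1 = !![1 + c * d, d * d; -(c * c), 1 - c * d]) :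
    sgn M = -1 := by
  have hcd : Valued.v (c * d) ≤ 1 := by rw [map_mul]; exact mul_le_one' hc hd
  unfold sgn
  rw [hM]
  have e : (!![1 + c * d, d * d; -(c * c), 1 - c * d] : Matrix (Fin 2) (Fin 2) L).map rd =
      !![rd (1 + c * d), rd (d * d); rd (-(c * c)), rd (1 - c * d)] := by
    ext i j
    fin_cases i <;> fin_cases j <;> simp
  rw [e]
  have h1 : Valued.v (1 : L) = 1 := map_one _
  have hsmall : ∀ x : L, Valued.v x < 1 → rd (1 + x) = 1 ∧ rd (1 - x) = 1 := by
    intro x hx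
    have a1 : Valued.v (1 + x) = 1 := by
      rw [Valuation.map_add_eq_of_lt_left _ (by rw [h1]; exact hx), h1]
    have a2 : Valued.v (1 - x) = 1 := by
      rw [sub_eq_add_neg, Valuation.map_add_eq_of_lt_left _ (by rw [h1, Valuation.map_neg]; exact hx), h1]
    unfold rd
    rw [a1, a2]
    simp
  rcases v_le_iff c hc with h | h <;> rcases v_le_iff d hd with h' | h'
  · have a1 : rd (1 + c * d) = (0 : ZMod 2) := by
      unfold rd
      rw [if_pos (h2.two 1 (c * d) h1 (by rw [map_mul, h, h', one_mul]))]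
    have a2 : rd (1 - c * d) = (0 : ZMod 2) := by
      unfold rd
      rw [sub_eq_add_neg, if_pos (h2.two 1 (-(c * d)) h1 (by rw [Valuation.map_neg, map_mul, h, h', one_mul]))]
    have a3 : rd (d * d) = (1 : ZMod 2) := by
      unfold rd
      rw [map_mul, h', one_mul, if_neg (lt_irrefl _)]
    have a4 : rd (-(c * c)) = (1 : ZMod 2) := by
      unfold rd
      rw [Valuation.map_neg, map_mul, h, one_mul, if_neg (lt_irrefl _)]
    rw [a1, a2, a3, a4]
    unfold sgnM
    rw [if_neg (by decide)]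
  · have hs : Valued.v (c * d) < 1 := by rw [map_mul, h, one_mul]; exact h'
    have a3 : rd (d * d) = (0 : ZMod 2) := by
      unfold rd
      rw [map_mul, if_pos (mul_lt_one' h' h')]
    have a4 : rd (-(c * c)) = (1 : ZMod 2) := by
      unfold rd
      rw [Valuation.map_neg, map_mul, h, one_mul, if_neg (lt_irrefl _)]
    rw [(hsmall _ hs).1, (hsmall _ hs).2, a3, a4]
    unfold sgnM
    rw [if_neg (by decide)]
  · have hs : Valued.v (c * d) < 1 := by rw [map_mul, h', mul_one]; exact h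
    have a3 : rd (d * d) = (1 : ZMod 2) := by
      unfold rd
      rw [map_mul, h', one_mul, if_neg (lt_irrefl _)]
    have a4 : rd (-(c * c)) = (0 : ZMod 2) := by
      unfold rd
      rw [Valuation.map_neg, map_mul, if_pos (mul_lt_one' h h)]
    rw [(hsmall _ hs).1, (hsmall _ hs).2, a3, a4]
    unfold sgnM
    rw [if_neg (by decide)]
  · rcases hm with hm | hm
    · exact absurd hm h.ne
    · exact absurd hm h'.ne

/-- the conjugate of a unipotent matrix -/
theorem conj_bor (g : GL (Fin 2) L) (c d : L) (μ : L) (hμ : μ ≠ 0)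
    (h10 : g.1 1 0 = c * μ) (h11 : g.1 1 1 = d * μ) (e : L) :
    (g⁻¹ * bor 1 (e * (g.1.det / (μ * μ))) 1 * g).1 =
      !![1 + e * (c * d), e * (d * d); -(e * (c * c)), 1 - e * (c * d)] := by
  have hd2 : g.1.det = g.1 0 0 * g.1 1 1 - g.1 0 1 * g.1 1 0 := Matrix.det_fin_two _
  have h : (bor 1 (e * (g.1.det / (μ * μ))) 1 * g).1 =
      g.1 * !![1 + e * (c * d), e * (d * d); -(e * (c * c)), 1 - e * (c * d)] := by
    rw [hd2, h10, h11]
    ext i j
    fin_cases i <;> fin_cases j <;>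
      simp [bor, Matrix.mul_apply, Fin.sum_univ_two, h10, h11] <;> field_simp <;> ring
  have h' : (g⁻¹ * bor 1 (e * (g.1.det / (μ * μ))) 1 * g).1 =
      (g⁻¹).1 * (bor 1 (e * (g.1.det / (μ * μ))) 1 * g).1 := by
    rw [mul_assoc]
    rfl
  rw [h', h, ← mul_assoc]
  have h3 : (g⁻¹).1 * g.1 = 1 := by
    have : g⁻¹ * g = 1 := inv_mul_cancel g
    calc (g⁻¹).1 * g.1 = (g⁻¹ * g).1 := rfl
      _ = 1 := by rw [this]; rfl
  rw [h3, one_mul]

theorem conj_integral (g : GL (Fin 2) L) (c d : L)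
    (hc : Valued.v c ≤ 1) (hd : Valued.v d ≤ 1) (μ : L) (hμ : μ ≠ 0)
    (h10 : g.1 1 0 = c * μ) (h11 : g.1 1 1 = d * μ) :
    Integral (g⁻¹ * bor 1 (g.1.det / (μ * μ)) 1 * g) := by
  have hcd : Valued.v (c * d) ≤ 1 := by rw [map_mul]; exact mul_le_one' hc hd
  have hdd : Valued.v (d * d) ≤ 1 := by rw [map_mul]; exact mul_le_one' hd hd
  have hcc : Valued.v (c * c) ≤ 1 := by rw [map_mul]; exact mul_le_one' hc hc
  have h1 : Valued.v (1 : L) ≤ 1 := (map_one _).le
  have hK : ∀ e : L, (e = 1 ∨ e = -1) →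
      ∀ i j, Valued.v ((g⁻¹ * bor 1 (e * (g.1.det / (μ * μ))) 1 * g).1 i j) ≤ 1 := by
    intro e he i j
    have hev : ∀ x : L, Valued.v x ≤ 1 → Valued.v (e * x) ≤ 1 := by
      intro x hx
      rcases he with rfl | rfl
      · rwa [one_mul]
      · rwa [neg_one_mul, Valuation.map_neg]
    rw [conj_bor g c d μ hμ h10 h11 e]
    fin_cases i <;> fin_cases j
    · exact (Valuation.map_add _ _ _).trans (max_le h1 (hev _ hcd))
    · exact hev _ hdd
    · show Valued.v (-(e * (c * c))) ≤ 1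
      rw [Valuation.map_neg]
      exact hev _ hcc
    · exact (Valuation.map_sub _ _ _).trans (max_le h1 (hev _ hcd))
  have hinv : (g⁻¹ * bor 1 (g.1.det / (μ * μ)) 1 * g)⁻¹ =
      g⁻¹ * bor 1 (-1 * (g.1.det / (μ * μ))) 1 * g := by
    rw [inv_eq_iff_mul_eq_one]
    have hb : bor (1 : Lˣ) (g.1.det / (μ * μ)) 1 * bor 1 (-1 * (g.1.det / (μ * μ))) 1 = 1 := by
      rw [← bor_mul, neg_one_mul, add_neg_cancel, bor_zero]
    calc g⁻¹ * bor 1 (g.1.det / (μ * μ)) 1 * g * (g⁻¹ * bor 1 (-1 * (g.1.det / (μ * μ))) 1 * g)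
        = g⁻¹ * (bor 1 (g.1.det / (μ * μ)) 1 * bor 1 (-1 * (g.1.det / (μ * μ))) 1) * g := by group
      _ = 1 := by rw [hb, mul_one, inv_mul_cancel]
  intro i j
  refine ⟨?_, ?_⟩
  · have := hK 1 (Or.inl rfl) i j
    rwa [one_mul] at this
  · rw [hinv]
    exact hK (-1) (Or.inr rfl) i j

/-- the local statement -/
theorem local_ct {p : Lˣ} (h2 : Res2 L p) (g : GL (Fin 2) L) :
    ∃ t : L, Integral (g⁻¹ * bor 1 t 1 * g) ∧ sgn (g⁻¹ * bor 1 t 1 * g) = -1 := by
  have hrow : g.1 1 0 ≠ 0 ∨ g.1 1 1 ≠ 0 := by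
    by_contra h
    push Not at h
    have hd2 : g.1.det = g.1 0 0 * g.1 1 1 - g.1 0 1 * g.1 1 0 := Matrix.det_fin_two _
    rw [h.1, h.2] at hd2
    have h0 : g.1.det = 0 := by rw [hd2]; ring
    exact g.det.ne_zero h0
  obtain ⟨μ, c, d, hμ, hc, hd, hm, h10, h11⟩ : ∃ μ c d : L, μ ≠ 0 ∧ Valued.v c ≤ 1 ∧
      Valued.v d ≤ 1 ∧ (Valued.v c = 1 ∨ Valued.v d = 1) ∧ g.1 1 0 = c * μ ∧ g.1 1 1 = d * μ := by
    rcases le_total (Valued.v (g.1 1 0)) (Valued.v (g.1 1 1)) with h | h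
    · have h0 : g.1 1 1 ≠ 0 := by
        intro h0
        rw [h0, map_zero, le_zero_iff, map_eq_zero] at h
        rcases hrow with h' | h'
        · exact h' h
        · exact h' h0
      refine ⟨g.1 1 1, g.1 1 0 / g.1 1 1, 1, h0, ?_, (map_one _).le, Or.inr (map_one _), ?_, ?_⟩
      · rw [map_div₀]
        exact div_le_one_of_le₀ h zero_le
      · rw [div_mul_cancel₀ _ h0]
      · rw [one_mul]
    · have h0 : g.1 1 0 ≠ 0 := by
        intro h0
        rw [h0, map_zero, le_zero_iff, map_eq_zero] at h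
        rcases hrow with h' | h'
        · exact h' h0
        · exact h' h
      refine ⟨g.1 1 0, 1, g.1 1 1 / g.1 1 0, h0, (map_one _).le, ?_, Or.inl (map_one _), ?_, ?_⟩
      · rw [map_div₀]
        exact div_le_one_of_le₀ h zero_le
      · rw [one_mul]
      · rw [div_mul_cancel₀ _ h0]
  refine ⟨g.1.det / (μ * μ), conj_integral g c d hc hd μ hμ h10 h11, ?_⟩
  refine local_sign h2 _ c d hc hd hm ?_
  have := conj_bor g c d μ hμ h10 h11 1
  rw [one_mul, one_mul, one_mul, one_mul] at this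
  exact this

end loc

theorem pr_v_single {v w : Pl} (hw : w ≠ v) (t : Kv v) (g : GA) :
    pr w (g⁻¹ * borA 1 (sngl v t, 0) 1 * g) = 1 := by
  rw [pr_mul, pr_mul, pr_inv, pr_bor, sngl_ne hw, bor_zero, mul_one, inv_mul_cancel]

theorem ct : S_CT := by
  intro hfr f hf g
  obtain ⟨p, h2⟩ := hfr
  obtain ⟨t, hI, hs⟩ := local_ct h2 (pr v1 g)
  refine ⟨(sngl v1 t, 0), fun x => ?_⟩
  have hv1 : pr v1 (g⁻¹ * borA 1 (sngl v1 t, 0) 1 * g) = (pr v1 g)⁻¹ * bor 1 t 1 * pr v1 g := by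
    rw [pr_mul, pr_mul, pr_inv, pr_bor, sngl_same]
  have h2' : (g⁻¹ * borA 1 (sngl v1 t, 0) 1 * g).2 = 1 := by
    show (g⁻¹).2 * (bor 1 (0 : Kinf) 1) * g.2 = 1
    rw [bor_zero, mul_one]
    exact inv_mul_cancel g.2
  have hD : inD (g⁻¹ * borA 1 (sngl v1 t, 0) 1 * g) := by
    refine ⟨fun v => ?_, ?_, ?_, ?_⟩
    · by_cases hv : v = v1
      · subst hv
        rw [hv1]
        exact hI
      · rw [pr_v_single hv]
        exact integral_one
    · rw [h2']
      exact integral_one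
    · rw [pr_v_single v0_ne_v1]
      simp
    · rw [h2']
      simp
  have hchi : chi (g⁻¹ * borA 1 (sngl v1 t, 0) 1 * g) = -1 := by
    unfold chi
    rw [hv1]
    exact hs
  have e : borA 1 (x + (sngl v1 t, 0)) 1 * g =
      borA 1 x 1 * g * (g⁻¹ * borA 1 (sngl v1 t, 0) 1 * g) := by
    rw [borA_mul]
    group
  rw [e, hf _ _ hD, hchi, neg_one_mul]

end Pool.Agent.W2helper12.LL
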