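import Pool.Agent.W2helper2.LL.BJStm
import Pool.Agent.W2helper10.LL.Triv

/-!
# Project LL (`MP_5ae62c_nt`), stage 2, piece INTK
-/

set_option autoImplicit false

noncomputable section

namespace Pool.Agent.W2helper12.LL

open Pool.Agent.W2helper63.LL Pool.Agent.W2helper2.LL
open IsDedekindDomain Polynomial Matrix WithZero
open scoped Classical

theorem intk : S_INTK := by
  intro γ hI
  have hP : ∀ i j, ∃ P : R, algebraMap R K P = γ.1 i j := fun i j =>
    HeightOneSpectrum.mem_integers_of_valuation_le_one K _ fun v => by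
      have h : Valued.v (ev v (algebraMap K Af (γ.1 i j))) ≤ 1 := (hI v i j).1
      rwa [Pool.Agent.W2helper10.LL.v_fin] at h
  have hQ : ∀ i j, ∃ P : R, algebraMap R K P = γ⁻¹.1 i j := fun i j =>
    HeightOneSpectrum.mem_integers_of_valuation_le_one K _ fun v => by
      have e : (pr v (dg γ))⁻¹ = pr v (dg γ⁻¹) := by
        unfold pr dg
        rw [← map_inv]
        simp only [← map_inv]
      have h := (hI v i j).2
      rw [e] at h
      have h' : Valued.v (ev v (algebraMap K Af (γ⁻¹.1 i j))) ≤ 1 := h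
      rwa [Pool.Agent.W2helper10.LL.v_fin] at h'
  choose P hP using hP
  choose Q hQ using hQ
  have hinj : Function.Injective (algebraMap R K) := IsFractionRing.injective R K
  have e1 : (Matrix.of P : Matrix (Fin 2) (Fin 2) R).map (algebraMap R K) = γ.1 := by
    ext i j; exact hP i j
  have e2 : (Matrix.of Q : Matrix (Fin 2) (Fin 2) R).map (algebraMap R K) = γ⁻¹.1 := by
    ext i j; exact hQ i j
  have hPQ : (Matrix.of P : Matrix (Fin 2) (Fin 2) R) * Matrix.of Q = 1 := by
    have h2 : γ.1 * γ⁻¹.1 = 1 := by rw [← Units.val_mul, mul_inv_cancel]; rfl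
    refine Matrix.map_injective hinj ?_
    beta_reduce
    rw [Matrix.map_mul]
    rw [e1, e2, h2]
    simp
  have hQP : (Matrix.of Q : Matrix (Fin 2) (Fin 2) R) * Matrix.of P = 1 := by
    have h2 : γ⁻¹.1 * γ.1 = 1 := by rw [← Units.val_mul, inv_mul_cancel]; rfl
    refine Matrix.map_injective hinj ?_
    beta_reduce
    rw [Matrix.map_mul]
    rw [e1, e2, h2]
    simp
  refine ⟨⟨Matrix.of P, Matrix.of Q, hPQ, hQP⟩, ?_⟩
  exact Units.ext e1.symm

end Pool.Agent.W2helper12.LL
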