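import Pool.Agent.W2helper12.LL.CT
import Pool.Agent.W2helper10.LL.Triv

/-!
# Project LL (`MP_5ae62c_nt`), piece VAL
-/

set_option autoImplicit false

noncomputable section

namespace Pool.Agent.W2helper12.LL

open Pool.Agent.W2helper63.LL
open IsDedekindDomain Polynomial Matrix WithZero
open Pool.Agent.W2helper10.LL (v_inf v_fin v_pinf bor_zpow)
open scoped Classical

theorem pr_ri (v : Pl) (h : GL (Fin 2) Kinf) : pr v (ri h) = 1 := by
  unfold pr ri
  rw [map_one]

theorem pr_dg (v : Pl) (γ : GL (Fin 2) K) (i j : Fin 2) :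
    (pr v (dg γ)).1 i j = ev v (algebraMap K Af (γ.1 i j)) := rfl

theorem dg_inv (γ : GL (Fin 2) K) : (dg γ)⁻¹ = dg γ⁻¹ := by
  unfold dg
  rw [Prod.inv_mk, ← map_inv, ← map_inv]

theorem pr_zz (v : Pl) (n : ℤ) : pr v (zz ^ n) = 1 := by
  unfold pr
  rw [Prod.pow_fst]
  show GeneralLinearGroup.map (ev v) ((1 : GL (Fin 2) Af) ^ n) = 1
  rw [_root_.one_zpow, map_one]

theorem vdet_of_integral {L : Type} [Field L] [Valued L (WithZero (Multiplicative ℤ))]
    (g : GL (Fin 2) L) (hg : Integral g) : Valued.v g.1.det = 1 := by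
  have hvd : ∀ a b c d : L, Valued.v a ≤ 1 → Valued.v b ≤ 1 → Valued.v c ≤ 1 →
      Valued.v d ≤ 1 → Valued.v (a * d - b * c) ≤ 1 := by
    intro a b c d ha hb hc hd
    refine (Valuation.map_sub _ _ _).trans (max_le ?_ ?_)
    · rw [map_mul]; exact mul_le_one' ha hd
    · rw [map_mul]; exact mul_le_one' hb hc
  have h1 : Valued.v g.1.det ≤ 1 := by
    rw [Matrix.det_fin_two]
    exact hvd _ _ _ _ (hg 0 0).1 (hg 0 1).1 (hg 1 0).1 (hg 1 1).1
  have h2 : Valued.v g⁻¹.1.det ≤ 1 := by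
    rw [Matrix.det_fin_two]
    exact hvd _ _ _ _ (hg 0 0).2 (hg 0 1).2 (hg 1 0).2 (hg 1 1).2
  have h3 : Valued.v g.1.det * Valued.v g⁻¹.1.det = 1 := by
    rw [← map_mul, ← Matrix.det_mul, ← Units.val_mul, mul_inv_cancel]
    show Valued.v (Matrix.det (1 : Matrix (Fin 2) (Fin 2) L)) = 1
    rw [Matrix.det_one, map_one]
  refine le_antisymm h1 ?_
  rw [← h3]
  exact mul_le_of_le_one_right' h2

theorem comp {h : GL (Fin 2) Kinf} {γ : GL (Fin 2) K} {n : ℤ} {k : GA} (hk : inD k)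
    (e : ri h = dg γ * zz ^ n * k) :
    ∃ Q : Matrix (Fin 2) (Fin 2) R, IsUnit Q.det ∧ (∀ i j, algebraMap R K (Q i j) = γ⁻¹.1 i j) ∧
      Q 0 1 ∈ v0.asIdeal ∧ Valued.v h.1.det = exp (-(2 * n)) ∧
      (n = 0 → k.2 = GeneralLinearGroup.map (algebraMap K Kinf) γ⁻¹ * h) := by
  obtain ⟨hfin, hinf, h0, h1⟩ := hk
  have hpr : ∀ v : Pl, pr v k = pr v (dg γ⁻¹) := by
    intro v
    have := congrArg (pr v) e
    rw [pr_mul, pr_mul, pr_zz, pr_ri, mul_one] at this
    rw [← dg_inv, pr_inv]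
    exact (eq_inv_of_mul_eq_one_right this.symm)
  have hpr' : ∀ v : Pl, (pr v k)⁻¹ = pr v (dg γ) := by
    intro v
    rw [hpr, ← dg_inv, pr_inv, inv_inv]
  have hP : ∀ i j, ∃ P : R, algebraMap R K P = γ.1 i j := fun i j =>
    HeightOneSpectrum.mem_integers_of_valuation_le_one K _ fun v => by
      have := (hfin v i j).2
      rw [hpr', pr_dg, v_fin] at this
      exact this
  have hQ : ∀ i j, ∃ P : R, algebraMap R K P = γ⁻¹.1 i j := fun i j =>
    HeightOneSpectrum.mem_integers_of_valuation_le_one K _ fun v => by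
      have := (hfin v i j).1
      rw [hpr, pr_dg, v_fin] at this
      exact this
  choose P hP using hP
  choose Q hQ using hQ
  have hinj : Function.Injective (algebraMap R K) := IsFractionRing.injective R K
  have e1 : (Matrix.of P : Matrix (Fin 2) (Fin 2) R).map (algebraMap R K) = γ.1 := by
    ext i j; exact hP i j
  have e2 : (Matrix.of Q : Matrix (Fin 2) (Fin 2) R).map (algebraMap R K) = γ⁻¹.1 := by
    ext i j; exact hQ i j
  have hPQ : (Matrix.of P : Matrix (Fin 2) (Fin 2) R) * Matrix.of Q = 1 := by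
    have h2 : γ.1 * γ⁻¹.1 = 1 := by rw [← Units.val_mul, mul_inv_cancel]; rfl
    refine Matrix.map_injective hinj ?_
    beta_reduce
    rw [Matrix.map_mul]
    rw [e1, e2, h2]
    simp
  have h3 : (Matrix.of P).det * (Matrix.of Q).det = 1 := by
    rw [← Matrix.det_mul, hPQ, Matrix.det_one]
  have hdetP : Valued.v (algebraMap K Kinf γ.1.det) = 1 := by
    obtain ⟨a, ha, hC⟩ := Polynomial.isUnit_iff.1 (IsUnit.of_mul_eq_one _ h3)
    have e3 : γ.1.det = algebraMap R K (C a) := by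
      rw [hC, ← e1]
      exact (RingHom.map_det (algebraMap R K) _).symm
    rw [v_inf, e3, RatFunc.inftyValuation_apply,
      RatFunc.inftyValuation.polynomial _ (by simpa using ha.ne_zero)]
    simp
  have hinf2 : h = GeneralLinearGroup.map (algebraMap K Kinf) γ *
      bor (pinf ^ n) 0 (pinf ^ n) * k.2 := by
    have := congrArg Prod.snd e
    rw [Prod.snd_mul, Prod.snd_mul, Prod.pow_snd] at this
    rw [← bor_zpow]
    exact this
  refine ⟨Matrix.of Q, IsUnit.of_mul_eq_one_right _ h3, hQ, ?_, ?_, ?_⟩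
  · rw [hpr, pr_dg, v_fin, ← hQ, HeightOneSpectrum.valuation_lt_one_iff_mem] at h0
    exact h0
  · have hb : (bor (pinf ^ n) 0 (pinf ^ n) : GL (Fin 2) Kinf).1.det =
        ((pinf ^ n : Kinfˣ) : Kinf) * ((pinf ^ n : Kinfˣ) : Kinf) := by
      rw [Matrix.det_fin_two]
      simp [bor]
    have hpn : Valued.v ((pinf ^ n : Kinfˣ) : Kinf) = exp (-n) := by
      rw [Units.val_zpow_eq_zpow_val, map_zpow₀, v_pinf, ← WithZero.exp_zsmul]
      simp
    have hm : (GeneralLinearGroup.map (algebraMap K Kinf) γ).1.det = algebraMap K Kinf γ.1.det :=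
      (RingHom.map_det (algebraMap K Kinf) _).symm
    rw [hinf2, Units.val_mul, Units.val_mul, Matrix.det_mul, Matrix.det_mul, map_mul, map_mul,
      vdet_of_integral _ hinf, mul_one, hb, hm, hdetP, one_mul, map_mul, hpn, ← exp_add]
    congr 1
    ring
  · intro hn
    subst hn
    have hb : (bor (pinf ^ (0 : ℤ)) 0 (pinf ^ (0 : ℤ)) : GL (Fin 2) Kinf) = 1 := by
      rw [← bor_zpow, zpow_zero]
    rw [hb, mul_one] at hinf2
    rw [hinf2, map_inv, inv_mul_cancel_left]

theorem poly_small {Q : R} (h : Valued.v (algebraMap K Kinf (algebraMap R K Q)) < 1) : Q = 0 := by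
  by_contra h5
  rw [v_inf, RatFunc.inftyValuation_apply, RatFunc.inftyValuation.polynomial _ h5, ← exp_zero,
    exp_lt_exp] at h
  omega

theorem nl_inv {L : Type} [Field L] (x : L) : (nl x)⁻¹ = nl (-x) := by
  rw [inv_eq_iff_mul_eq_one]
  ext i j
  fin_cases i <;> fin_cases j <;> simp [nl, Matrix.mul_apply, Fin.sum_univ_two]

theorem nu_inv {L : Type} [Field L] (x : L) : (nu x)⁻¹ = nu (-x) := by
  rw [inv_eq_iff_mul_eq_one]
  unfold nu
  rw [← bor_mul, add_neg_cancel, bor_zero]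

theorem map_nl {L L' : Type} [Field L] [Field L'] (f : L →+* L') (x : L) :
    GeneralLinearGroup.map f (nl x) = nl (f x) := by
  ext i j
  fin_cases i <;> fin_cases j <;> simp [nl, GeneralLinearGroup.map_apply]

theorem map_nu {L L' : Type} [Field L] [Field L'] (f : L →+* L') (x : L) :
    GeneralLinearGroup.map f (nu x) = nu (f x) := by
  ext i j
  fin_cases i <;> fin_cases j <;> simp [nu, bor, GeneralLinearGroup.map_apply]

section loc

variable {L : Type} [Field L] [Valued L (WithZero (Multiplicative ℤ))]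

theorem integral_nl (x : L) (hx : Valued.v x ≤ 1) : Integral (nl x) := by
  intro i j
  rw [nl_inv]
  fin_cases i <;> fin_cases j <;> simp [nl, hx]

theorem integral_nu (x : L) (hx : Valued.v x ≤ 1) : Integral (nu x) := by
  intro i j
  rw [nu_inv]
  fin_cases i <;> fin_cases j <;> simp [nu, bor, hx]

theorem integral_sw : Integral (sw : GL (Fin 2) L) := by
  intro i j
  have : (sw : GL (Fin 2) L)⁻¹ = sw := rfl
  rw [this]
  fin_cases i <;> fin_cases j <;> simp [sw]

theorem sgn_nl (x : L) (hx : Valued.v x = 1) : sgn (nl x) = -1 := by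
  unfold sgn sgnM
  have e : (nl x).1.map rd = !![1, 0; 1, 1] := by
    ext i j
    fin_cases i <;> fin_cases j <;> simp [nl, rd, hx]
  rw [e, if_neg (by decide)]

theorem sgn_nu (x : L) (hx : Valued.v x = 1) : sgn (nu x) = -1 := by
  unfold sgn sgnM
  have e : (nu x).1.map rd = !![1, 1; 0, 1] := by
    ext i j
    fin_cases i <;> fin_cases j <;> simp [nu, bor, rd, hx]
  rw [e, if_neg (by decide)]

end loc

theorem pr_dg_nl (v : Pl) (x : K) : pr v (dg (nl x)) = nl (ev v (algebraMap K Af x)) := by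
  refine Units.ext (Matrix.ext fun i j => ?_)
  rw [pr_dg]
  fin_cases i <;> fin_cases j <;> simp [nl]

theorem pr_dg_nu (v : Pl) (x : K) : pr v (dg (nu x)) = nu (ev v (algebraMap K Af x)) := by
  refine Units.ext (Matrix.ext fun i j => ?_)
  rw [pr_dg]
  fin_cases i <;> fin_cases j <;> simp [nu, bor]

theorem val : S_VAL := by
  intro hDD hfr hfi f hf
  obtain ⟨hint, hone, -, -, -, hchi1⟩ := hDD
  obtain ⟨hf1, hf2⟩ := hf
  refine ⟨?_, ?_, ?_, ?_, ?_, ?_⟩
  · -- f 1 = 1
    have := hf1 1 0 1 hone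
    rw [hchi1] at this
    have e : dg 1 * zz ^ (0 : ℤ) * 1 = 1 := by
      rw [zpow_zero, mul_one, mul_one]
      unfold dg
      rw [map_one, map_one]
      rfl
    rwa [e] at this
  · -- f (ri sw) = 0
    refine hf2 _ ?_
    rintro ⟨γ, n, k, hk, e⟩
    obtain ⟨Q, hQu, hQ, hQ0, hn, hk2⟩ := comp hk e
    have hd : Valued.v (sw : GL (Fin 2) Kinf).1.det = 1 := by
      rw [Matrix.det_fin_two]
      simp [sw]
    rw [hd, ← exp_zero, exp_inj] at hn
    have hn0 : n = 0 := by omega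
    have h10 := hk.2.2.2
    rw [hk2 hn0] at h10
    have e2 : (GeneralLinearGroup.map (algebraMap K Kinf) γ⁻¹ * sw : GL (Fin 2) Kinf).1 1 0 =
        algebraMap K Kinf (γ⁻¹.1 1 1) := by
      rw [Units.val_mul, Matrix.mul_apply, Fin.sum_univ_two]
      show algebraMap K Kinf (γ⁻¹.1 1 0) * 0 + algebraMap K Kinf (γ⁻¹.1 1 1) * 1 = _
      rw [mul_zero, zero_add, mul_one]
    rw [e2, ← hQ] at h10
    have hQ11 := poly_small h10
    rw [Matrix.det_fin_two, hQ11, mul_zero, zero_sub] at hQu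
    have hu : IsUnit (Q 0 1) := isUnit_of_mul_isUnit_left (IsUnit.neg_iff _ |>.1 hQu)
    exact v0.isPrime.ne_top (Ideal.eq_top_of_isUnit_mem _ hQ0 hu)
  · -- f (ri (nu 1 * sw)) = -1
    have hk1 : ∀ v : Pl, pr v ((dg (nl 1))⁻¹ * ri (nu 1 * sw)) = nl (-1) := by
      intro v
      rw [pr_mul, pr_ri, mul_one, pr_inv, pr_dg_nl, map_one, map_one, nl_inv]
    have hk2 : ((dg (nl 1))⁻¹ * ri (nu 1 * sw)).2 = nl (-1) * (nu 1 * sw) := by
      show (GeneralLinearGroup.map (algebraMap K Kinf) (nl 1))⁻¹ * (nu 1 * sw) = _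
      rw [map_nl, map_one, nl_inv]
    have hm1 : ∀ v : Pl, Valued.v (-1 : Kv v) = 1 := fun v => by
      rw [Valuation.map_neg, map_one]
    have hk : inD ((dg (nl 1))⁻¹ * ri (nu 1 * sw)) := by
      refine ⟨fun v => ?_, ?_, ?_, ?_⟩
      · rw [hk1]
        exact integral_nl _ (hm1 v).le
      · rw [hk2]
        have i1 : Integral (nl (-1) : GL (Fin 2) Kinf) :=
          integral_nl _ (by rw [Valuation.map_neg, map_one])
        have i2 : Integral (nu 1 : GL (Fin 2) Kinf) := integral_nu _ (map_one _).le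
        have i3 : Integral (nu 1 * sw : GL (Fin 2) Kinf) :=
          (hint Kinf pinf hfi _ _ i2 integral_sw).1
        exact (hint Kinf pinf hfi _ _ i1 i3).1
      · rw [hk1]
        simp [nl]
      · rw [hk2]
        have e0 : (nl (-1) * (nu 1 * sw) : GL (Fin 2) Kinf).1 1 0 = 0 := by
          simp [nl, nu, bor, sw, Matrix.mul_apply, Fin.sum_univ_two]
        rw [e0, map_zero]
        exact zero_lt_one
    have := hf1 (nl 1) 0 _ hk
    have e : dg (nl 1) * zz ^ (0 : ℤ) * ((dg (nl 1))⁻¹ * ri (nu 1 * sw)) = ri (nu 1 * sw) := by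
      rw [zpow_zero, mul_one, mul_inv_cancel_left]
    rw [e] at this
    rw [this]
    unfold chi
    rw [hk1]
    exact sgn_nl _ (hm1 v1)
  · -- f (ri (nu T)) = -1
    have hvT : ∀ v : Pl, Valued.v (ev v (algebraMap K Af RatFunc.X)) =
        v.valuation K (algebraMap R K X) := by
      intro v
      rw [v_fin, RatFunc.algebraMap_X]
    have hk1 : ∀ v : Pl, pr v ((dg (nu RatFunc.X))⁻¹ * ri (nu (Tu : Kinf))) =
        nu (-(ev v (algebraMap K Af RatFunc.X))) := by
      intro v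
      rw [pr_mul, pr_ri, mul_one, pr_inv, pr_dg_nu, nu_inv]
    have hk2 : ((dg (nu RatFunc.X))⁻¹ * ri (nu (Tu : Kinf))).2 = 1 := by
      show (GeneralLinearGroup.map (algebraMap K Kinf) (nu RatFunc.X))⁻¹ * nu (Tu : Kinf) = 1
      rw [map_nu]
      have : (Tu : Kinf) = algebraMap K Kinf RatFunc.X := rfl
      rw [this, inv_mul_cancel]
    have hk : inD ((dg (nu RatFunc.X))⁻¹ * ri (nu (Tu : Kinf))) := by
      refine ⟨fun v => ?_, ?_, ?_, ?_⟩
      · rw [hk1]
        refine integral_nu _ ?_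
        rw [Valuation.map_neg, hvT]
        exact v.valuation_le_one X
      · rw [hk2]
        exact integral_one
      · rw [hk1]
        have e0 : (nu (-(ev v0 (algebraMap K Af RatFunc.X))) : GL (Fin 2) (Kv v0)).1 0 1 =
            -(ev v0 (algebraMap K Af RatFunc.X)) := rfl
        rw [e0, Valuation.map_neg, hvT, HeightOneSpectrum.valuation_lt_one_iff_mem]
        exact Ideal.mem_span_singleton_self X
      · rw [hk2]
        simp
    have := hf1 (nu RatFunc.X) 0 _ hk
    have e : dg (nu RatFunc.X) * zz ^ (0 : ℤ) * ((dg (nu RatFunc.X))⁻¹ * ri (nu (Tu : Kinf))) =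
        ri (nu (Tu : Kinf)) := by
      rw [zpow_zero, mul_one, mul_inv_cancel_left]
    rw [e] at this
    rw [this]
    unfold chi
    rw [hk1]
    refine sgn_nu _ ?_
    rw [Valuation.map_neg, hvT, HeightOneSpectrum.valuation_eq_one_iff_notMem]
    intro hX
    have h3 : (X - C 1 : R) ∈ v1.asIdeal := Ideal.mem_span_singleton_self _
    have h5 : (1 : R) ∈ v1.asIdeal := by
      have h4 := v1.asIdeal.sub_mem hX h3
      have : (X - (X - C 1) : R) = 1 := by rw [C_1]; ring
      rwa [this] at h4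
    exact v1.isPrime.ne_top ((Ideal.eq_top_iff_one _).2 h5)
  · -- f (ri (ww⁻¹ sw ww)) = 0
    refine hf2 _ ?_
    rintro ⟨γ, n, k, hk, e⟩
    obtain ⟨Q, hQu, hQ, hQ0, hn, hk2⟩ := comp hk e
    have hh : ((ww pinf)⁻¹ * sw * ww pinf : GL (Fin 2) Kinf).1 =
        !![0, ((pinf⁻¹ : Kinfˣ) : Kinf); (pinf : Kinf), 0] := by
      have e1 : ((ww pinf)⁻¹ : GL (Fin 2) Kinf).1 = !![0, ((pinf⁻¹ : Kinfˣ) : Kinf); 1, 0] := rfl
      rw [Units.val_mul, Units.val_mul, e1]
      ext i j
      fin_cases i <;> fin_cases j <;>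
        simp [ww, sw, Matrix.mul_apply, Fin.sum_univ_two]
    have hd : Valued.v ((ww pinf)⁻¹ * sw * ww pinf : GL (Fin 2) Kinf).1.det = 1 := by
      rw [hh, Matrix.det_fin_two]
      simp
    rw [hd, ← exp_zero, exp_inj] at hn
    have hn0 : n = 0 := by omega
    have hent : ∀ i, k.2.1 i 1 = algebraMap K Kinf (γ⁻¹.1 i 0) * ((pinf⁻¹ : Kinfˣ) : Kinf) := by
      intro i
      rw [hk2 hn0, Units.val_mul, hh, Matrix.mul_apply, Fin.sum_univ_two]
      show algebraMap K Kinf (γ⁻¹.1 i 0) * ((pinf⁻¹ : Kinfˣ) : Kinf) +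
        algebraMap K Kinf (γ⁻¹.1 i 1) * 0 = _
      rw [mul_zero, add_zero]
    have hQi : ∀ i, Q i 0 = 0 := by
      intro i
      have h1 := (hk.2.1 i 1).1
      rw [hent, map_mul, Units.val_inv_eq_inv_val, map_inv₀, v_pinf, ← hQ] at h1
      refine poly_small (lt_of_le_of_lt (b := exp (-1 : ℤ)) ?_ ?_)
      · have h2 := mul_le_mul_left h1 (exp (-1 : ℤ))
        rw [mul_assoc, inv_mul_cancel₀ exp_ne_zero, mul_one, one_mul] at h2
        exact h2
      · rw [← exp_zero, exp_lt_exp]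
        norm_num
    rw [Matrix.det_fin_two, hQi 0, hQi 1, zero_mul, mul_zero, sub_zero] at hQu
    exact not_isUnit_zero hQu
  · -- f (ri ww) = 0
    refine hf2 _ ?_
    rintro ⟨γ, n, k, hk, e⟩
    obtain ⟨Q, hQu, hQ, hQ0, hn, hk2⟩ := comp hk e
    have hd : Valued.v (ww pinf : GL (Fin 2) Kinf).1.det = exp (-1 : ℤ) := by
      rw [Matrix.det_fin_two]
      have : (ww pinf : GL (Fin 2) Kinf).1 0 0 * (ww pinf : GL (Fin 2) Kinf).1 1 1 -
          (ww pinf : GL (Fin 2) Kinf).1 0 1 * (ww pinf : GL (Fin 2) Kinf).1 1 0 = -(pinf : Kinf) := by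
        simp [ww]
      rw [this, Valuation.map_neg, v_pinf]
    rw [hd, exp_inj] at hn
    omega

end Pool.Agent.W2helper12.LL
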